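import Pool.Agent.Helper70.BI.T.StT
import Pool.Agent.Helper18.BI.R.M_MQ

/-!
# Project BI, stage 6 (T), module SQD: homotopies of the square constant on the boundary
-/

set_option autoImplicit false

open scoped Topology unitInterval
open Set Pool.Agent.Helper65.Barb Pool.Agent.Helper18.BI
open Pool.Agent.Helper18.FinR (sqr)
open Pool.Agent.Helper18.BI.R (S2)

namespace Pool.Agent.Helper70.T

private theorem sin_zero_SQD (x : I) (h : Real.sin (Real.pi * x) = 0) : x = 0 ∨ x = 1 := by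
  have hp := Real.pi_pos
  have h0 : (0 : ℝ) ≤ x := x.2.1
  have h1 : (x : ℝ) ≤ 1 := x.2.2
  by_contra hx
  rw [not_or] at hx
  have h2 : (0 : ℝ) < x := lt_of_le_of_ne h0 (fun h => hx.1 (Subtype.ext h.symm))
  have h3 : (x : ℝ) < 1 := lt_of_le_of_ne h1 (fun h => hx.2 (Subtype.ext h))
  have : 0 < Real.sin (Real.pi * x) := by
    apply Real.sin_pos_of_pos_of_lt_pi
    · positivity
    · nlinarith
  linarith

private theorem sin_nn_SQD (x : I) : 0 ≤ Real.sin (Real.pi * x) := by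
  have hp := Real.pi_pos
  have h0 : (0 : ℝ) ≤ x := x.2.1
  have h1 : (x : ℝ) ≤ 1 := x.2.2
  apply Real.sin_nonneg_of_nonneg_of_le_pi
  · positivity
  · nlinarith

private theorem cos_inj_SQD (x y : I) (h : Real.cos (Real.pi * x) = Real.cos (Real.pi * y)) :
    x = y := by
  have hp := Real.pi_pos
  have hm : ∀ z : I, Real.pi * z ∈ Icc (0 : ℝ) Real.pi := by
    intro z
    have h0 : (0 : ℝ) ≤ z := z.2.1
    have h1 : (z : ℝ) ≤ 1 := z.2.2
    exact ⟨by positivity, by nlinarith⟩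
  have h2 := Real.injOn_cos (hm x) (hm y) h
  exact Subtype.ext (mul_left_cancel₀ hp.ne' h2)

private theorem inj_SQD (t t' : Fin 2 → I) (h : sqr t = sqr t') :
    t = t' ∨ (t ∈ Cube.boundary (Fin 2) ∧ t' ∈ Cube.boundary (Fin 2)) := by
  obtain ⟨a, ha⟩ : ∃ a, a = Real.sin (Real.pi * t 0) := ⟨_, rfl⟩
  obtain ⟨b, hb⟩ : ∃ b, b = Real.sin (Real.pi * t 1) := ⟨_, rfl⟩
  obtain ⟨a', ha'⟩ : ∃ a, a = Real.sin (Real.pi * t' 0) := ⟨_, rfl⟩
  obtain ⟨b', hb'⟩ : ∃ b, b = Real.sin (Real.pi * t' 1) := ⟨_, rfl⟩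
  obtain ⟨A, hA⟩ : ∃ a, a = Real.cos (Real.pi * t 0) := ⟨_, rfl⟩
  obtain ⟨B, hB⟩ : ∃ b, b = Real.cos (Real.pi * t 1) := ⟨_, rfl⟩
  obtain ⟨A', hA'⟩ : ∃ a, a = Real.cos (Real.pi * t' 0) := ⟨_, rfl⟩
  obtain ⟨B', hB'⟩ : ∃ b, b = Real.cos (Real.pi * t' 1) := ⟨_, rfl⟩
  have a0 : 0 ≤ a := ha ▸ sin_nn_SQD _
  have b0 : 0 ≤ b := hb ▸ sin_nn_SQD _
  have a0' : 0 ≤ a' := ha' ▸ sin_nn_SQD _
  have b0' : 0 ≤ b' := hb' ▸ sin_nn_SQD _
  have h1 := congrArg Prod.fst h
  have h2 := congrArg (fun z => z.2.re) h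
  have h3 := congrArg (fun z => z.2.im) h
  simp only [sqr, ← ha, ← hb, ← ha', ← hb', ← hA, ← hB, ← hA', ← hB'] at h1 h2 h3
  have hsq : (a * b) ^ 2 = (a' * b') ^ 2 := by nlinarith
  have hab : a * b = a' * b' := by
    rwa [pow_left_inj₀ (by positivity) (by positivity) (by norm_num)] at hsq
  by_cases hz : a * b = 0
  · right
    have key : ∀ s : Fin 2 → I, Real.sin (Real.pi * s 0) * Real.sin (Real.pi * s 1) = 0 →
        s ∈ Cube.boundary (Fin 2) := by
      intro s hs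
      rcases mul_eq_zero.mp hs with h | h
      · exact ⟨0, sin_zero_SQD _ h⟩
      · exact ⟨1, sin_zero_SQD _ h⟩
    refine ⟨key t (by rw [← ha, ← hb]; exact hz), key t' (by rw [← ha', ← hb', ← hab]; exact hz)⟩
  · left
    have hz' : a' * b' ≠ 0 := hab ▸ hz
    have hBB : B = B' := by
      have e : a * b * B = a * b * B' := by
        have : a * b * B = a' * b' * B' := by linarith
        rw [this, hab]
      exact mul_left_cancel₀ hz e
    have h11 : t 1 = t' 1 := cos_inj_SQD _ _ (by rw [← hB, ← hB']; exact hBB)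
    have hbb : b = b' := by rw [hb, hb', h11]
    have hb1 : b ≠ 0 := fun h => hz (by rw [h, mul_zero])
    have ha1 : a ≠ 0 := fun h => hz (by rw [h, zero_mul])
    have haa : a = a' := by
      rw [← hbb] at hab
      exact mul_right_cancel₀ hb1 hab
    have hAA : A = A' := by
      rw [← hbb, ← haa] at h3
      have e : (a * b ^ 2) * A = (a * b ^ 2) * A' := by linarith
      exact mul_left_cancel₀ (mul_ne_zero ha1 (pow_ne_zero 2 hb1)) e
    have h00 : t 0 = t' 0 := cos_inj_SQD _ _ (by rw [← hA, ← hA']; exact hAA)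
    funext i
    fin_cases i
    · exact h00
    · exact h11

private theorem cont_SQD : Continuous sqr := by
  unfold Pool.Agent.Helper18.FinR.sqr
  refine Continuous.prodMk (by fun_prop) ?_
  have : (fun t : Fin 2 → I =>
      (⟨-(2 * Real.sin (Real.pi * t 0) * Real.sin (Real.pi * t 1) * Real.cos (Real.pi * t 1)),
      2 * Real.sin (Real.pi * t 0) * Real.cos (Real.pi * t 0) * Real.sin (Real.pi * t 1) ^ 2⟩ :
        ℂ)) = fun t => Complex.equivRealProdCLM.symm
      (-(2 * Real.sin (Real.pi * t 0) * Real.sin (Real.pi * t 1) * Real.cos (Real.pi * t 1)),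
      2 * Real.sin (Real.pi * t 0) * Real.cos (Real.pi * t 0) * Real.sin (Real.pi * t 1) ^ 2) := by
    funext t
    apply Complex.ext
    · simp
    · simp
  rw [this]
  exact Complex.equivRealProdCLM.symm.continuous.comp (by fun_prop)

/-- MODULE SQD. -/
theorem m_SQD : StSQD := by
  intro X _ F hF hbd
  obtain ⟨-, hS, -, hsurj, -⟩ := Helper18.BI.R.m_MQ
  have hmem : ∀ t, sqr t ∈ S2 := fun t => hS (t 0) (t 1)
  have hex : ∀ m : R3, m ∈ S2 → ∃ t, sqr t = m := by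
    intro m hm
    obtain ⟨x, hx, y, hy, hxy⟩ := hsurj m hm
    exact ⟨![⟨x, hx⟩, ⟨y, hy⟩], hxy⟩
  classical
  let T : R3 → (Fin 2 → I) := fun m => if h : ∃ t, sqr t = m then h.choose else fun _ => 0
  have hT : ∀ t, sqr (T (sqr t)) = sqr t := by
    intro t
    have h : ∃ t', sqr t' = sqr t := ⟨t, rfl⟩
    simp only [T, dif_pos h]
    exact h.choose_spec
  have hFT : ∀ u ∈ Icc (0 : ℝ) 1, ∀ t, F (u, T (sqr t)) = F (u, t) := by
    intro u hu t
    rcases inj_SQD _ _ (hT t) with h | h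
    · rw [h]
    · exact hbd u hu _ h.1 _ h.2
  refine ⟨fun z => F (z.1, T z.2), ?_, hFT⟩
  let q : Icc (0 : ℝ) 1 × (Fin 2 → I) → Icc (0 : ℝ) 1 × S2 := fun z => (z.1, ⟨sqr z.2, hmem z.2⟩)
  have hqc : Continuous q :=
    continuous_fst.prodMk ((cont_SQD.comp continuous_snd).subtype_mk _)
  have hqs : Function.Surjective q := by
    rintro ⟨u, m, hm⟩
    obtain ⟨t, ht⟩ := hex m hm
    exact ⟨(u, t), Prod.ext rfl (Subtype.ext ht)⟩
  have hq : Topology.IsQuotientMap q := (hqc.isClosedMap).isQuotientMap hqc hqs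
  let g : Icc (0 : ℝ) 1 × S2 → X := fun z => F ((z.1 : ℝ), T z.2)
  have hg : Continuous g := by
    rw [hq.continuous_iff]
    have e : g ∘ q = fun z : Icc (0 : ℝ) 1 × (Fin 2 → I) => F ((z.1 : ℝ), z.2) := by
      funext z
      exact hFT z.1 z.1.2 z.2
    rw [e]
    exact hF.comp_continuous (by fun_prop) (fun z => ⟨z.1.2, mem_univ _⟩)
  rw [continuousOn_iff_continuous_domRestrict]
  have e : (Icc (0 : ℝ) 1 ×ˢ S2).domRestrict (fun z : ℝ × R3 => F (z.1, T z.2)) =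
      g ∘ fun z : (Icc (0 : ℝ) 1 ×ˢ S2 : Set (ℝ × R3)) =>
        ((⟨z.1.1, z.2.1⟩ : Icc (0 : ℝ) 1), (⟨z.1.2, z.2.2⟩ : S2)) := rfl
  rw [e]
  refine hg.comp (Continuous.prodMk ?_ ?_)
  · exact (continuous_fst.comp continuous_subtype_val).subtype_mk _
  · exact (continuous_snd.comp continuous_subtype_val).subtype_mk _

end Pool.Agent.Helper70.T
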